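import Mathlib
import Pool.Agent.IDK.KDefs
import Pool.Agent.IDK.KMain

/-!
# The exponent of conformally invariant scaling limits of the critical FK interface

FK model with any real `q ∈ [1, 4)` at its self-dual point on rectangles of width `n j` and height `M j`, with
`n j → ∞` and `M j / n j → ∞`, bottom side wired, other sides free. Suppose that the probabilities that the interface
comes close to an arc of the left side or of the bottom side converge to a function `Φ` of the cross-ratio of the arc.
Then `Φ` has the exponent of SLE with parameter `4 π / arccos (-√q / 2)`: it is regularly varying at `1` with exponent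
`(2 / π) arcsin (√q / 2)`. If `n j = j`, then the one-arm probability of a boundary point of the half-plane has the
same exponent.
-/

namespace Pool.Agent.Results.MP_b3e76a_pr.ConformalExponent

open Filter Topology Pool.Agent.IDK.Strip

/-- Conformally invariant limits have the exponent `(2 / π) arcsin (√q / 2)`. -/
theorem result (q : ℝ) (hq : 1 ≤ q) (hq4 : q < 4) (n M : ℕ → ℕ) (hn : Tendsto n atTop atTop)
    (hM : Tendsto (fun j => (M j : ℝ) / n j) atTop atTop) (Φ : ℝ → ℝ)
    (hΦ : ConformalLimit q n M Φ) :
    (∀ x : ℝ, 0 < x → Tendsto (fun t : ℝ => Φ (1 - x * t) / Φ (1 - t)) (𝓝[>] 0)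
      (𝓝 (x ^ (2 / Real.pi * Real.arcsin (√q / 2))))) ∧
    ((∀ j, n j = j) → ∀ δ > 0, ∃ k₀ : ℕ, ∀ k N : ℕ, k₀ ≤ k → 4 * k ≤ N →
      (k : ℝ) ^ (-(2 / Real.pi * Real.arcsin (√q / 2)) - δ) ≤ halfArm q N k ∧
      halfArm q N k ≤ (k : ℝ) ^ (-(2 / Real.pi * Real.arcsin (√q / 2)) + δ)) :=
  Pool.Agent.IDK.conformal_main hq hq4 hn hM hΦ

end Pool.Agent.Results.MP_b3e76a_pr.ConformalExponent
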