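import Mathlib
import Pool.Agent.IDK.KDefs
import Pool.Agent.IDK.KMain

/-!
# The interface of the critical FK model in a half-strip can only converge to SLE with the predicted parameter

FK model with any real `q ∈ [1, 4)` at its self-dual point on the rectangle `{0, …, n} × {0, …, M}`, bottom side wired,
other sides free, `M / n` large. If `κ` is a positive number other than `4 π / arccos (-√q / 2)`, then some of finitely
many arcs (of the left side or of the bottom side) witnesses, for all large `n` and all large `M / n`, that the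
probability that the interface comes within distance `δ n` of the arc is not close to the probability that chordal SLE
with parameter `κ` in the half-strip hits the arc. So the interface does not converge in law to SLE with parameter `κ`,
not even along a subsequence.
-/

namespace Pool.Agent.Results.MP_b3e76a_pr.KappaIdentification

open Pool.Agent.IDK.Strip

/-- Only the parameter `4 π / arccos (-√q / 2)` is possible. -/
theorem result (q : ℝ) (hq : 1 ≤ q) (hq4 : q < 4) (κ : ℝ) (hκ0 : 0 < κ)
    (hκ : κ ≠ 4 * Real.pi / Real.arccos (-√q / 2)) :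
    ∃ ε > 0, ∃ δ₀ > 0, ∃ A B : Finset (ℝ × ℝ),
      (∀ I ∈ A, 0 < I.1 ∧ I.1 < I.2) ∧ (∀ I ∈ B, 0 < I.1 ∧ I.1 < I.2 ∧ I.2 < 1) ∧
      ∃ K : ℕ, ∀ δ : ℝ, 0 ≤ δ → δ ≤ δ₀ → ∃ n₀ : ℕ, ∀ n ≥ n₀, ∀ M ≥ K * n,
        (∃ I ∈ A, ε ≤ |nearSide q n M δ I.1 I.2 - sleHit κ (sideRatio I.1 I.2)|) ∨
        (∃ I ∈ B, ε ≤ |nearBottom q n M δ I.1 I.2 - sleHit κ (bottomRatio I.1 I.2)|) :=
  Pool.Agent.IDK.kappa_main hq hq4 hκ0 hκ

end Pool.Agent.Results.MP_b3e76a_pr.KappaIdentification
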