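import Mathlib
import Pool.Agent.H95.Wedge.Defs
import Pool.Agent.H95.Wedge.ArmDef
import Pool.Agent.H95.Wedge.Final
import Pool.Agent.FKR.TipMain

/-!
# Power law and exact sum of the tip two-point function of the critical FK model in wedges

Take `m` quadrants of the square lattice and glue them around a common tip `O` (a half-plane for
`m = 2`, a plane slit along a half-line for `m = 4`, a branched cover for larger `m`). For the FK model
with any real `q ≥ 1` at its self-dual point and free boundary conditions, the probability that `O` is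
connected to the vertex at distance `k` on a boundary ray is of order exactly `1 / k` if
`q = 4 cos² (π / (m + 2))`, at least `c k ^ (-1 + ε)` for smaller `q` and at most `C k ^ (-1 - ε)` for
larger `q`; for larger `q` its infinite-volume limit has an explicit sum over the ray, a quotient of
Chebyshev polynomials of the second kind. For `q < 4` it is comparable to the product of the one-arm
probabilities of the tip and of a boundary point of a half-plane.
-/

namespace Pool.Agent.Results.MP_b3e76a_pr.TipPowerLaw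

open Finset Filter Topology Pool.Agent.H95.Wedge

/-- Order and exact sum of the two-point function between the tip and a boundary vertex at distance
`k`, and its factorisation into one-arm probabilities. -/
theorem result (q : ℝ) (hq : 1 ≤ q) (m : ℕ) (hm : 1 ≤ m) :
    (∃ g : ℕ → ℝ,
      (∀ k, Tendsto (fun N => tipTwoPoint q m N k) atTop (𝓝 (g k))) ∧
      (∀ k N, tipTwoPoint q m N k ≤ g k) ∧
      (q = 4 * Real.cos (Real.pi / (m + 2)) ^ 2 → ∃ c C : ℝ, 0 < c ∧ 0 < C ∧
        ∀ k : ℕ, 1 ≤ k → (∀ N, 2 * k ≤ N → c / k ≤ tipTwoPoint q m N k) ∧ g k ≤ C / k) ∧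
      (q < 4 * Real.cos (Real.pi / (m + 2)) ^ 2 → ∃ ε c : ℝ, 0 < ε ∧ 0 < c ∧
        ∀ k : ℕ, 1 ≤ k → ∀ N, 2 * k ≤ N → c * (k : ℝ) ^ (-1 + ε) ≤ tipTwoPoint q m N k) ∧
      (4 * Real.cos (Real.pi / (m + 2)) ^ 2 < q →
        (∃ ε C : ℝ, 0 < ε ∧ 0 < C ∧ ∀ k : ℕ, 1 ≤ k → g k ≤ C * (k : ℝ) ^ (-1 - ε)) ∧
        HasSum (fun k => g (k + 1))
          ((∑ i ∈ range (m + 1), (Polynomial.Chebyshev.U ℝ i).eval (√q / 2))
            / (Polynomial.Chebyshev.U ℝ (m + 1)).eval (√q / 2)))) ∧
    (q < 4 → ∃ c C : ℝ, 0 < c ∧ 0 < C ∧ ∀ k N : ℕ, 1 ≤ k → 4 * k ≤ N →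
      c * (tipArm q m N k * tipArm q 2 N k) ≤ tipTwoPoint q m N k ∧
      tipTwoPoint q m N k ≤ C * (tipArm q m N k * tipArm q 2 N k)) := by
  obtain ⟨⟨g, h1, h2, h3, h4, h5⟩, h6⟩ := Pool.Agent.FKR.tip_main q hq m hm
  obtain ⟨g', k1, -, k3⟩ := wedge_main q hq m hm
  have e : g' = fun k => g (k + 1) := funext fun k => tendsto_nhds_unique (k1 k) (h1 (k + 1))
  exact ⟨⟨g, h1, h2, h3, h4, fun h => ⟨h5 h, e ▸ k3 h⟩⟩, h6⟩

end Pool.Agent.Results.MP_b3e76a_pr.TipPowerLaw
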