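import Mathlib
import Pool.Agent.IDK.TBDefs
import Pool.Agent.IDK.TBMain

/-!
# A macroscopic identity for the interface of the critical FK model

FK model with cluster weight `q ∈ [1, 4)` at the self-dual point in the rectangle `{0, …, N r} × {0, …, M}`,
bottom side wired, the three other sides free. The sides are cut into arcs of length `r`. The expected
numbers `T`, `L`, `B` of arcs of the top, left and bottom side which are touched by the interface
satisfy `T + √q L = B` up to an error `ε L`, for all `N ≥ N₀` and all `r ≥ r₀(N)` (that is, in the scaling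
limit, for a fine subdivision of the sides), uniformly in the aspect ratio `M ≥ α N r`.
-/

namespace Pool.Agent.Results.MP_b3e76a_pr.TouchBalance

open Pool.Agent.IDK

/-- The numbers of macroscopic boundary arcs touched by the interface: `T + √q L = B` asymptotically. -/
theorem result (q : ℝ) (hq : 1 ≤ q) (hq4 : q < 4) (α ε : ℝ) (hα : 0 < α) (hε : 0 < ε) :
    ∃ N₀ : ℕ, ∀ N ≥ N₀, ∃ r₀ : ℕ, ∀ r ≥ r₀, ∀ M : ℕ, α * (N * r) ≤ M →
      |touchedTop q N r M + √q * touchedLeft q N r M - touchedBottom q N r M| ≤
        ε * touchedLeft q N r M :=
  tb_main q hq hq4 α ε hα hε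

end Pool.Agent.Results.MP_b3e76a_pr.TouchBalance
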